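import Pool.Agent.W5h31.IX.IX2
import Pool.Agent.TH899.UG.TTE

/-!
Linear equations in two primes, for every large `N`, with a condition on the pair of the indices of
the two primes.
-/

set_option autoImplicit false

open Filter

namespace Pool.Agent.Results.MP_5d7b92_nt.IndexPairsInBoxes

/-- `K` contains an element of every box `{i, …, i + M - 1} × {j, …, j + M - 1}`, `i, j ≥ 1`. -/
def MeetsBoxes (M : ℕ) (K : Set (ℕ × ℕ)) : Prop :=
  ∀ i j : ℕ, 1 ≤ i → 1 ≤ j → ∃ u < M, ∃ v < M, (i + u, j + v) ∈ K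

/-- The triples `(α, β, γ)` of the three equations `p + q = 2N + c`, `2p - q = N + c` and
`2p + q = 3N + c`. -/
def equations : Set (ℤ × ℤ × ℤ) := {(1, 1, 2), (2, -1, 1), (2, 1, 3)}

/-- The pairs of primes `p, q ≤ 4N` with `(π(p), π(q)) ∈ K` and `α p + β q = γ N + c`, where
`a = (α, β, γ)`. -/
def solutions (K : Set (ℕ × ℕ)) (a : ℤ × ℤ × ℤ) (N : ℕ) (c : ℤ) : Set (ℕ × ℕ) :=
  {P : ℕ × ℕ | P.1.Prime ∧ P.2.Prime ∧ P.1 ≤ 4 * N ∧ P.2 ≤ 4 * N ∧
    (Nat.primeCounting P.1, Nat.primeCounting P.2) ∈ K ∧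
    a.1 * (P.1 : ℤ) + a.2.1 * (P.2 : ℤ) = a.2.2 * (N : ℤ) + c}

/-- The integers without a prime factor `l ≤ z`. -/
def rough (z : ℕ) : Set ℕ := {k : ℕ | ∀ l : ℕ, l.Prime → l ≤ z → ¬ l ∣ k}

/-- **Two primes with a condition on the pair of their indices, for every large `N`.** For every `M`
there is `C` such that for all `η > 0` and all large `N` the following holds for EVERY set `K` of pairs
of integers which meets all boxes with sides `M` (the set `K` may depend on `N`, and need not be a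
product): for one of the equations `p + q = 2N + c`, `2p - q = N + c`, `2p + q = 3N + c` and some
`|c| ≤ C` there are at least `N ^ (1 - η)` solutions in primes `p, q ≤ 4N` with
`(π(p), π(q)) ∈ K`. In particular, for every `z`, both indices can be taken without prime factors
`l ≤ z`. -/
theorem result :
    (∀ M : ℕ, 1 ≤ M → ∃ C : ℕ, ∀ η : ℝ, 0 < η → ∀ᶠ N : ℕ in atTop,
      ∀ K : Set (ℕ × ℕ), MeetsBoxes M K → ∃ a ∈ equations, ∃ c : ℤ, |c| ≤ C ∧
        (N : ℝ) ^ (1 - η) ≤ ((solutions K a N c).ncard : ℝ)) ∧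
    ∀ z : ℕ, ∃ C : ℕ, ∀ η : ℝ, 0 < η → ∀ᶠ N : ℕ in atTop,
      ∃ a ∈ equations, ∃ c : ℤ, |c| ≤ C ∧
        (N : ℝ) ^ (1 - η) ≤
          ((solutions {P : ℕ × ℕ | P.1 ∈ rough z ∧ P.2 ∈ rough z} a N c).ncard : ℝ) := by
  have h1 : ∀ M : ℕ, 1 ≤ M → ∃ C : ℕ, ∀ η : ℝ, 0 < η → ∀ᶠ N : ℕ in atTop,
      ∀ K : Set (ℕ × ℕ), MeetsBoxes M K → ∃ a ∈ equations, ∃ c : ℤ, |c| ≤ C ∧
        (N : ℝ) ^ (1 - η) ≤ ((solutions K a N c).ncard : ℝ) := by
    intro M hM
    obtain ⟨C, hC⟩ := Pool.Agent.TH899.UG.Pair4.tte M hM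
    exact ⟨4 * C, Pool.Agent.W5h31.IX.main hM hC⟩
  refine ⟨h1, fun z => ?_⟩
  obtain ⟨C, hC⟩ := h1 (primorial z) (primorial_pos z)
  refine ⟨C, fun η hη => ?_⟩
  filter_upwards [hC η hη] with N hN
  exact hN _ (Pool.Agent.W5h31.IX.boxes_rough z)

end Pool.Agent.Results.MP_5d7b92_nt.IndexPairsInBoxes
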