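import Mathlib
import Pool.Agent.W5h22.GS.L

set_option autoImplicit false

/-!
# Goldbach representations by primes whose indices lie in a set of density near one

Let `K` be a set of indices which misses at most the proportion `η` of the positive integers.
All but `C exp(-exp(c / η)) x` of the integers `n ≤ x` are of the form `2n = p + q` with primes
`p, q` both of whose indices `π(p)`, `π(q)` lie in `K`; no bound of a smaller order holds, even if
only one of the two indices is required to lie in `K` and `2n` is required to be a sum of two primes.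
-/

namespace Pool.Agent.Results.MP_5d7b92_nt.IndexSetsOfDensityNearOne

open Filter Finset

/-- `2n` is a sum of two primes `p` and `2n - p` such that `π(p)` lies in `K`. -/
def Represented (K : Set ℕ) (n : ℕ) : Prop :=
  ∃ p, p.Prime ∧ p < 2 * n ∧ Nat.primeCounting p ∈ K ∧ (2 * n - p).Prime

/-- `2n` is a sum of two primes `p` and `2n - p` such that both `π(p)` and `π(2n - p)` lie in `K`. -/
def BothIndices (K : Set ℕ) (n : ℕ) : Prop :=
  ∃ p, p.Prime ∧ p < 2 * n ∧ Nat.primeCounting p ∈ K ∧ (2 * n - p).Prime ∧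
    Nat.primeCounting (2 * n - p) ∈ K

/-- The number of the positive integers `k ≤ t` which do not lie in `K`. -/
noncomputable def missing (K : Set ℕ) (t : ℕ) : ℕ := {k : ℕ | 1 ≤ k ∧ k ≤ t ∧ k ∉ K}.ncard

/-- `K` misses asymptotically at most the proportion `η` of the positive integers. -/
def Dense (η : ℝ) (K : Set ℕ) : Prop := ∀ᶠ t : ℕ in atTop, (missing K t : ℝ) ≤ η * t

/-- For large `x` all but `δ x` of the positive integers `n ≤ x` satisfy `BothIndices K n`. -/
def FewFailures (δ : ℝ) (K : Set ℕ) : Prop :=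
  ∀ᶠ x : ℕ in atTop, ({n : ℕ | 1 ≤ n ∧ n ≤ x ∧ ¬ BothIndices K n}.ncard : ℝ) ≤ δ * x

/-- For large `x` at least `δ x` of the positive integers `n ≤ x` are such that `2n` is a sum of two
primes but `Represented K n` fails. -/
def ManyFailures (δ : ℝ) (K : Set ℕ) : Prop :=
  ∀ᶠ x : ℕ in atTop,
    δ * x ≤ {n : ℕ | 1 ≤ n ∧ n ≤ x ∧ ¬ Represented K n ∧ Represented Set.univ n}.ncard

open Classical in
lemma missing_eq (K : Set ℕ) (t : ℕ) : missing K t = Pool.Agent.W5h22.GS.miss K t := by
  unfold missing Pool.Agent.W5h22.GS.miss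
  rw [← Set.ncard_coe_finset]
  congr 1
  ext k
  simp only [Set.mem_ofPred_eq, coe_filter, mem_Icc]
  tauto

open Classical in
lemma few_eq (K : Set ℕ) (x : ℕ) : {n : ℕ | 1 ≤ n ∧ n ≤ x ∧ ¬ BothIndices K n}.ncard =
    Pool.Agent.W5h22.GS.fails (Pool.Agent.W5h22.GS.Both K) x := by
  unfold Pool.Agent.W5h22.GS.fails
  rw [← Set.ncard_coe_finset]
  congr 1
  ext k
  simp only [Set.mem_ofPred_eq, coe_filter, mem_Icc]
  have : BothIndices K k ↔ Pool.Agent.W5h22.GS.Both K k := Iff.rfl
  tauto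

/-- **Theorem.** (1) If `K` misses at most the proportion `η` of the positive integers, then for all
but `C exp(-exp(c / η)) x` of the `n ≤ x` the number `2n` is a sum of two primes with both indices in `K`.
(2) For every `η` some such `K` has at least `c exp(-exp(C / η)) x` integers `n ≤ x` for which `2n`
is a sum of two primes but never with one index in `K`.
(3) In particular (1) holds for the indices which are not divisible by any member of a set `𝒬` whose
reciprocals have all finite partial sums at most `η`. -/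
theorem result : ∃ c C : ℝ, 0 < c ∧ 0 < C ∧ ∀ η : ℝ, 0 < η → η ≤ 1 →
    (∀ K : Set ℕ, Dense η K → FewFailures (C * Real.exp (-Real.exp (c / η))) K) ∧
    (∃ K : Set ℕ, Dense η K ∧ ManyFailures (c * Real.exp (-Real.exp (C / η))) K) ∧
    (∀ 𝒬 : Set ℕ, (∀ T : Finset ℕ, (T : Set ℕ) ⊆ 𝒬 → ∑ q ∈ T, (1 : ℝ) / q ≤ η) →
      FewFailures (C * Real.exp (-Real.exp (c / η))) {k | ∀ q ∈ 𝒬, ¬ q ∣ k}) := by
  classical
  obtain ⟨c₁, C₁, hc₁, hC₁, h1⟩ := Pool.Agent.W5h22.GS.index_upper
  obtain ⟨c₂, C₂, hc₂, hC₂, h2⟩ := Pool.Agent.W5h22.GS.index_lower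
  have hup : ∀ η : ℝ, 0 < η → η ≤ 1 → ∀ K : Set ℕ, Dense η K →
      FewFailures (max C₁ C₂ * Real.exp (-Real.exp (min c₁ c₂ / η))) K := by
    intro η hη hη1 K hK
    have h3 := h1 η hη hη1 K (by
      filter_upwards [hK] with t ht
      rw [← missing_eq]; exact ht)
    unfold FewFailures
    filter_upwards [h3] with x hx
    rw [few_eq]
    refine hx.trans ?_
    apply mul_le_mul_of_nonneg_right _ (Nat.cast_nonneg _)
    apply mul_le_mul (le_max_left _ _) _ (Real.exp_pos _).le (hC₁.le.trans (le_max_left _ _))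
    apply Real.exp_le_exp.2
    apply neg_le_neg
    apply Real.exp_le_exp.2
    exact div_le_div_of_nonneg_right (min_le_left _ _) hη.le
  refine ⟨min c₁ c₂, max C₁ C₂, lt_min hc₁ hc₂, lt_max_of_lt_left hC₁, ?_⟩
  intro η hη hη1
  refine ⟨hup η hη hη1, ?_, ?_⟩
  · obtain ⟨K, hK1, hK2⟩ := h2 η hη hη1
    refine ⟨K, ?_, ?_⟩
    · unfold Dense
      filter_upwards [hK1] with t ht
      rw [missing_eq]; exact ht
    · unfold ManyFailures
      filter_upwards [hK2] with x hx
      obtain ⟨S, hS1, hS2⟩ := hx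
      have h3 : (S : Set ℕ) ⊆ {n : ℕ | 1 ≤ n ∧ n ≤ x ∧ ¬ Represented K n ∧ Represented Set.univ n} :=
        fun n hn => hS1 n hn
      have h4 : #S ≤ {n : ℕ | 1 ≤ n ∧ n ≤ x ∧ ¬ Represented K n ∧ Represented Set.univ n}.ncard := by
        rw [← Set.ncard_coe_finset]
        exact Set.ncard_le_ncard h3 ((Set.finite_Icc 1 x).subset (fun n hn => ⟨hn.1, hn.2.1⟩))
      refine le_trans ?_ (hS2.trans (by exact_mod_cast h4))
      apply mul_le_mul_of_nonneg_right _ (Nat.cast_nonneg _)
      apply mul_le_mul (min_le_right _ _) _ (Real.exp_pos _).le hc₂.le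
      apply Real.exp_le_exp.2
      apply neg_le_neg
      apply Real.exp_le_exp.2
      exact div_le_div_of_nonneg_right (le_max_right _ _) hη.le
  · intro 𝒬 h𝒬
    apply hup η hη hη1
    unfold Dense
    filter_upwards with t
    rw [missing_eq]
    unfold Pool.Agent.W5h22.GS.miss
    have h3 : (Icc 1 t).filter (fun k => k ∉ {k | ∀ q ∈ 𝒬, ¬ q ∣ k}) ⊆
        ((Icc 1 t).filter (fun q => q ∈ 𝒬)).biUnion (fun q => (Ioc 0 t).filter (fun k => q ∣ k)) := by
      intro k hk
      rw [mem_filter, mem_Icc] at hk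
      have h4 : ∃ q ∈ 𝒬, q ∣ k := by
        by_contra hcon
        push Not at hcon
        exact hk.2 hcon
      obtain ⟨q, q1, q2⟩ := h4
      rw [mem_biUnion]
      refine ⟨q, ?_, ?_⟩
      · rw [mem_filter, mem_Icc]
        exact ⟨⟨Nat.pos_of_dvd_of_pos q2 hk.1.1, (Nat.le_of_dvd hk.1.1 q2).trans hk.1.2⟩, q1⟩
      · rw [mem_filter, mem_Ioc]
        exact ⟨⟨hk.1.1, hk.1.2⟩, q2⟩
    have h4 := (card_le_card h3).trans card_biUnion_le
    have h5 : (#((Icc 1 t).filter (fun k => k ∉ {k | ∀ q ∈ 𝒬, ¬ q ∣ k})) : ℝ) ≤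
        ∑ q ∈ (Icc 1 t).filter (fun q => q ∈ 𝒬), (#((Ioc 0 t).filter (fun k => q ∣ k)) : ℝ) := by
      exact_mod_cast h4
    refine h5.trans ?_
    have h6 : ∀ q ∈ (Icc 1 t).filter (fun q => q ∈ 𝒬), (#((Ioc 0 t).filter (fun k => q ∣ k)) : ℝ) ≤ t * (1 / q) := by
      intro q _
      rw [Nat.Ioc_filter_dvd_card_eq_div]
      refine Nat.cast_div_le.trans (le_of_eq ?_)
      ring
    refine (sum_le_sum h6).trans ?_
    rw [← mul_sum, mul_comm]
    apply mul_le_mul_of_nonneg_right _ (Nat.cast_nonneg _)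
    apply h𝒬
    intro q hq
    rw [mem_coe, mem_filter] at hq
    exact hq.2

end Pool.Agent.Results.MP_5d7b92_nt.IndexSetsOfDensityNearOne
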