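import Mathlib
import Pool.Agent.W5h22.CR.E

set_option autoImplicit false

/-!
# Weights on the indices of the primes in Goldbach representations: an exact criterion

For every bounded weight `f` on the indices of the primes, the sum of `f(π(p))` over the representations
`n = p + q` is `o(n / log² n)` for almost all `n` if and only if, for every squarefree `q` and every `a`
coprime to `q`, the mean value of `f` over the indices `k` with `p_k ≡ a (mod q)` is zero.
-/

namespace Pool.Agent.Results.MP_5d7b92_nt.IndexWeightsCriterion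

open Filter Finset Topology

/-- The `k`-th prime: `nthPrime 1 = 2`, `nthPrime 2 = 3`, and so on. -/
noncomputable def nthPrime (k : ℕ) : ℕ := Nat.nth Nat.Prime (k - 1)

/-- The sum of `f(π(p))` over the primes `p < n` such that `n - p` is prime. -/
noncomputable def weightedReps (f : ℕ → ℝ) (n : ℕ) : ℝ :=
  ∑ p ∈ (range n).filter (fun p => p.Prime ∧ (n - p).Prime), f (Nat.primeCounting p)

/-- The number of the primes `p < n` such that `n - p` is prime and `π(p)` lies in `K`. -/
noncomputable def reps (K : Set ℕ) (n : ℕ) : ℕ :=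
  {p : ℕ | p.Prime ∧ p < n ∧ (n - p).Prime ∧ Nat.primeCounting p ∈ K}.ncard

/-- `F(n) = o(n / log² n)` for almost all `n`: for every `ε > 0` and all large `x` the inequality
`|F(n)| > ε n / log² n` holds for at most `ε x` of the positive integers `n ≤ x`. -/
def SmallForAlmostAll (F : ℕ → ℝ) : Prop := ∀ ε : ℝ, 0 < ε → ∀ᶠ x : ℕ in atTop,
  ({n : ℕ | 1 ≤ n ∧ n ≤ x ∧ ε * ((n : ℝ) / Real.log n ^ 2) < |F n|}.ncard : ℝ) ≤ ε * x

/-- The sum of `f(k)` over the indices `k ≤ N` such that the `k`-th prime is `≡ a (mod q)`. -/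
noncomputable def classSum (f : ℕ → ℝ) (q a N : ℕ) : ℝ :=
  ∑ k ∈ (Icc 1 N).filter (fun k => nthPrime k ≡ a [MOD q]), f k

/-- The number of the indices `k ≤ N` in `K` such that the `k`-th prime is `≡ a (mod q)`. -/
noncomputable def classCount (K : Set ℕ) (q a N : ℕ) : ℕ :=
  {k : ℕ | 1 ≤ k ∧ k ≤ N ∧ k ∈ K ∧ nthPrime k ≡ a [MOD q]}.ncard

lemma classCount_eq (K : Set ℕ) (q a N : ℕ) : classCount K q a N = Pool.Agent.W5h22.CR.KC K q a N := by
  classical
  unfold classCount Pool.Agent.W5h22.CR.KC nthPrime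
  rw [← Set.ncard_coe_finset]
  congr 1
  ext k
  simp only [Set.mem_ofPred_eq, coe_filter, mem_Icc]
  tauto

lemma small_iff (f : ℕ → ℝ) : SmallForAlmostAll (Pool.Agent.W5h22.CR.rep f) ↔ Pool.Agent.W5h22.CR.Sm f := by
  classical
  unfold SmallForAlmostAll Pool.Agent.W5h22.CR.Sm
  have e : ∀ (ε : ℝ) (x : ℕ), {n : ℕ | 1 ≤ n ∧ n ≤ x ∧ ε * ((n : ℝ) / Real.log n ^ 2) < |Pool.Agent.W5h22.CR.rep f n|}.ncard =
      Pool.Agent.W5h22.GS.fails (fun n : ℕ => ¬ (ε * ((n : ℝ) / Real.log n ^ 2) < |Pool.Agent.W5h22.CR.rep f n|)) x := by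
    intro ε x
    unfold Pool.Agent.W5h22.GS.fails
    rw [← Set.ncard_coe_finset]
    congr 1
    ext n
    simp only [Set.mem_ofPred_eq, coe_filter, mem_Icc, not_not]
    tauto
  simp only [e]

lemma reps_eq (K : Set ℕ) (δ : ℝ) (n : ℕ) : (reps K n : ℝ) - δ * reps Set.univ n =
    Pool.Agent.W5h22.CR.rep (fun p => (Set.indicator K (fun _ => (1 : ℝ)) (Nat.primeCounting p)) - δ) n := by
  classical
  have h1 : ∀ L : Set ℕ, (reps L n : ℝ) = ∑ p ∈ Pool.Agent.W5h22.GS.G1 n, Set.indicator L (fun _ => (1 : ℝ)) (Nat.primeCounting p) := by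
    intro L
    have h2 : reps L n = #((Pool.Agent.W5h22.GS.G1 n).filter (fun p => Nat.primeCounting p ∈ L)) := by
      unfold reps Pool.Agent.W5h22.GS.G1
      rw [← Set.ncard_coe_finset]
      congr 1
      ext p
      simp only [Set.mem_ofPred_eq, coe_filter, mem_filter, mem_range]
      tauto
    rw [h2, card_filter]
    push_cast
    apply sum_congr rfl
    intro p _
    by_cases h : Nat.primeCounting p ∈ L
    · rw [if_pos h, Set.indicator_of_mem h]
    · rw [if_neg h, Set.indicator_of_notMem h]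
  rw [h1 K, h1 Set.univ]
  unfold Pool.Agent.W5h22.CR.rep
  rw [sum_sub_distrib, mul_sum]
  congr 1
  apply sum_congr rfl
  intro p _
  rw [Set.indicator_of_mem (Set.mem_univ _), mul_one]

/-- **A criterion for index weights in Goldbach representations.**
(1) Let `f : ℕ → [-1, 1]`. The sum of `f(π(p))` over the representations `n = p + q` of `n` as a sum of two
primes is `o(n / log² n)` for almost all `n` if and only if for every squarefree `q` and every `a` coprime
to `q` the sum of `f(k)` over the `k ≤ N` with `p_k ≡ a (mod q)` is `o(N)`.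
(2) Let `K` be a set of indices and `0 ≤ δ ≤ 1`. For almost all `n` the number of the representations
`n = p + q` with `π(p) ∈ K` is `δ` times the number of all representations, up to `o(n / log² n)`, if and
only if for every squarefree `q` and every `a` coprime to `q` the proportion of the `k ≤ N` with `k ∈ K` and
`p_k ≡ a (mod q)` tends to `δ / φ(q)`.
(3) Squarefree moduli cannot be replaced by all moduli: there is a `K` for which (2) holds with `δ = 1 / 2`, although the
proportion of the `k ≤ N` with `k ∈ K` and `p_k ≡ 1 (mod 4)` tends to `1 / 2`, and not to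
`δ / φ(4) = 1 / 4`. -/
theorem result :
    (∀ f : ℕ → ℝ, (∀ k, |f k| ≤ 1) → (SmallForAlmostAll (weightedReps f) ↔
      ∀ q : ℕ, Squarefree q → ∀ a : ℕ, a.Coprime q →
        Tendsto (fun N : ℕ => classSum f q a N / N) atTop (𝓝 0))) ∧
    (∀ (K : Set ℕ) (δ : ℝ), 0 ≤ δ → δ ≤ 1 →
      (SmallForAlmostAll (fun n => (reps K n : ℝ) - δ * reps Set.univ n) ↔
        ∀ q : ℕ, Squarefree q → ∀ a : ℕ, a.Coprime q →
          Tendsto (fun N : ℕ => (classCount K q a N : ℝ) / N) atTop (𝓝 (δ / q.totient)))) ∧
    (∃ K : Set ℕ, SmallForAlmostAll (fun n => (reps K n : ℝ) - 1 / 2 * reps Set.univ n) ∧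
      Tendsto (fun N : ℕ => (classCount K 4 1 N : ℝ) / N) atTop (𝓝 (1 / 2))) := by
  classical
  have h2 : ∀ (K : Set ℕ) (δ : ℝ), 0 ≤ δ → δ ≤ 1 →
      (SmallForAlmostAll (fun n => (reps K n : ℝ) - δ * reps Set.univ n) ↔
        ∀ q : ℕ, Squarefree q → ∀ a : ℕ, a.Coprime q →
          Tendsto (fun N : ℕ => (classCount K q a N : ℝ) / N) atTop (𝓝 (δ / q.totient))) := by
    intro K δ hδ0 hδ1
    have e1 : (fun n => (reps K n : ℝ) - δ * reps Set.univ n) =
        Pool.Agent.W5h22.CR.rep (fun p => (if Nat.primeCounting p ∈ K then 1 else 0) - δ) := by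
      funext n
      rw [reps_eq]
      unfold Pool.Agent.W5h22.CR.rep
      apply sum_congr rfl
      intro p _
      show Set.indicator K (fun _ => (1 : ℝ)) (Nat.primeCounting p) - δ = (if Nat.primeCounting p ∈ K then 1 else 0) - δ
      by_cases h : Nat.primeCounting p ∈ K
      · rw [if_pos h, Set.indicator_of_mem h]
      · rw [if_neg h, Set.indicator_of_notMem h]
    rw [e1, small_iff]
    simp only [classCount_eq]
    have h3 := Pool.Agent.W5h22.CR.critK K δ hδ0 hδ1
    convert h3
  refine ⟨?_, h2, Pool.Agent.W5h22.CR.K4, ?_, ?_⟩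
  · intro f hf
    have h1 := Pool.Agent.W5h22.CR.critI hf
    rw [← small_iff] at h1
    exact h1
  · rw [h2 _ _ (by norm_num) (by norm_num)]
    intro q hq a ha
    simp only [classCount_eq]
    exact Pool.Agent.W5h22.CR.K4_sf q hq a ha
  · simp only [classCount_eq]
    exact Pool.Agent.W5h22.CR.K4_not

end Pool.Agent.Results.MP_5d7b92_nt.IndexWeightsCriterion
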