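import Mathlib
import Pool.Agent.W5h22.CR.I

set_option autoImplicit false

/-!
# Weights on both indices in Goldbach representations: an exact criterion

For all bounded weights `f`, `g` on the indices of the primes, the sum of `f(π(p)) g(π(q))` over the
representations `n = p + q` is `o(n / log² n)` for almost all `n` if and only if the exponential sums
`∑_{k ≤ N} f(k) e(α p_k)` and `∑_{k ≤ N} g(k) e(α p_k)` have no common large frequency.
-/

namespace Pool.Agent.Results.MP_5d7b92_nt.JointIndexWeights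

open Filter Finset Topology

/-- The `k`-th prime: `nthPrime 1 = 2`, `nthPrime 2 = 3`, and so on. -/
noncomputable def nthPrime (k : ℕ) : ℕ := Nat.nth Nat.Prime (k - 1)

/-- The sum of `f(π(p)) g(π(n - p))` over the primes `p < n` such that `n - p` is prime. -/
noncomputable def jointReps (f g : ℕ → ℝ) (n : ℕ) : ℝ :=
  ∑ p ∈ (range n).filter (fun p => p.Prime ∧ (n - p).Prime),
    f (Nat.primeCounting p) * g (Nat.primeCounting (n - p))

/-- `F(n) = o(n / log² n)` for almost all `n`: for every `ε > 0` and all large `x` the inequality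
`|F(n)| > ε n / log² n` holds for at most `ε x` of the positive integers `n ≤ x`. -/
def SmallForAlmostAll (F : ℕ → ℝ) : Prop := ∀ ε : ℝ, 0 < ε → ∀ᶠ x : ℕ in atTop,
  ({n : ℕ | 1 ≤ n ∧ n ≤ x ∧ ε * ((n : ℝ) / Real.log n ^ 2) < |F n|}.ncard : ℝ) ≤ ε * x

/-- The sum of `f(k) exp(2πiαp_k)` over the indices `k ≤ N`, where `p_k` is the `k`-th prime. -/
noncomputable def indexSum (f : ℕ → ℝ) (α : ℝ) (N : ℕ) : ℂ :=
  ∑ k ∈ Icc 1 N, (f k : ℂ) * Complex.exp (2 * Real.pi * Complex.I * α * nthPrime k)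

/-- The sums of `f` and `g` have no common frequency: the supremum over `α` of the product of the two
exponential sums up to `N` is `o(N²)`. -/
def NoCommonFrequency (f g : ℕ → ℝ) : Prop := ∀ ε : ℝ, 0 < ε → ∀ᶠ N : ℕ in atTop, ∀ α : ℝ,
  ‖indexSum f α N‖ * ‖indexSum g α N‖ ≤ ε * (N : ℝ) ^ 2

lemma indexSum_eq (f : ℕ → ℝ) (α : ℝ) (N : ℕ) : indexSum f α N = Pool.Agent.W5h22.CR.IS f α N := by
  unfold indexSum Pool.Agent.W5h22.CR.IS nthPrime Pool.Agent.Helper602.MK.ee
  apply sum_congr rfl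
  intro k _
  congr 2
  push_cast
  ring

lemma small_iff (F : ℕ → ℝ) : SmallForAlmostAll F ↔ Pool.Agent.W5h22.CR.SmF F := by
  classical
  unfold SmallForAlmostAll Pool.Agent.W5h22.CR.SmF
  have e : ∀ (ε : ℝ) (x : ℕ), {n : ℕ | 1 ≤ n ∧ n ≤ x ∧ ε * ((n : ℝ) / Real.log n ^ 2) < |F n|}.ncard =
      Pool.Agent.W5h22.GS.fails (fun n : ℕ => ¬ (ε * ((n : ℝ) / Real.log n ^ 2) < |F n|)) x := by
    intro ε x
    unfold Pool.Agent.W5h22.GS.fails
    rw [← Set.ncard_coe_finset]
    congr 1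
    ext n
    simp only [Set.mem_ofPred_eq, coe_filter, mem_Icc, not_not]
    tauto
  simp only [e]

/-- **Two weights on the indices in Goldbach representations.**
(1) Let `f, g : ℕ → [-1, 1]`. The sum of `f(π(p)) g(π(q))` over the representations `n = p + q` of `n` as a
sum of two primes is `o(n / log² n)` for almost all `n` if and only if the supremum over all real `α` of
`|∑_{k ≤ N} f(k) e(α p_k)| |∑_{k ≤ N} g(k) e(α p_k)|` is `o(N²)`.
(2) For a given `f : ℕ → [-1, 1]` this happens for all weights `g : ℕ → [-1, 1]` if and only if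
`|∑_{k ≤ N} f(k) e(α p_k)| = o(N)`, uniformly in `α`. -/
theorem result :
    (∀ f g : ℕ → ℝ, (∀ k, |f k| ≤ 1) → (∀ k, |g k| ≤ 1) →
      (SmallForAlmostAll (jointReps f g) ↔ NoCommonFrequency f g)) ∧
    (∀ f : ℕ → ℝ, (∀ k, |f k| ≤ 1) →
      ((∀ g : ℕ → ℝ, (∀ k, |g k| ≤ 1) → SmallForAlmostAll (jointReps f g)) ↔
        ∀ ε : ℝ, 0 < ε → ∀ᶠ N : ℕ in atTop, ∀ α : ℝ, ‖indexSum f α N‖ ≤ ε * N)) := by
  have h1 : ∀ f g : ℕ → ℝ, (∀ k, |f k| ≤ 1) → (∀ k, |g k| ≤ 1) →
      (SmallForAlmostAll (jointReps f g) ↔ Pool.Agent.W5h22.CR.NoFreqI f g) := by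
    intro f g hf hg
    have h2 := Pool.Agent.W5h22.CR.crit2I hf hg
    rw [← small_iff] at h2
    exact h2
  refine ⟨?_, ?_⟩
  · intro f g hf hg
    rw [h1 f g hf hg]
    unfold NoCommonFrequency Pool.Agent.W5h22.CR.NoFreqI
    simp only [indexSum_eq]
  · intro f hf
    have h3 := Pool.Agent.W5h22.CR.orth (f := f)
    simp only [indexSum_eq]
    unfold Pool.Agent.W5h22.CR.Unif at h3
    rw [← h3]
    constructor
    · intro h g hg
      exact (h1 f g hf hg).1 (h g hg)
    · intro h g hg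
      exact (h1 f g hf hg).2 (h g hg)

end Pool.Agent.Results.MP_5d7b92_nt.JointIndexWeights
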